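import Pool.Agent.Lib.MP_f3446c_co.QuadD

/-!
# Transitive 4-vertex subtournaments, order `n = 4m`: the excess over the convexity bound

Definitions (in `Pool.Agent.Lib.MPf3446c`):

* `IsTournament T`: no vertex dominates itself, and of two different vertices exactly one
  dominates the other;
* `tr T k`: number of `k`-element sets of vertices on which `T` is transitive;
* `F n k`: minimum of `tr T k` over all tournaments `T` on `Fin n`;
* `DoublyRegular T`: any two vertices have exactly `(n - 3) / 4` common out-neighbours.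

With `L = m (m - 1) (4 m² - 7 m + 2)` (the convexity bound for `n = 4m`), the excess
`F(4m,4) - L` is at least `(3 - √5)/4 m² - m + 1/4` for every `m`, and at most `m (m - 1) / 2`
if there is a doubly regular tournament of order `4m - 1`, in particular if `4m - 1` is a prime
power.
-/

set_option autoImplicit false

namespace Pool.Agent.Results.MP_f3446c_co.QuadraticExcess

open Pool.Agent.Lib.MPf3446c

theorem upper {V : Type} [Fintype V] {T : V → V → Prop} (hT : IsTournament T) {m : ℕ}
    (hm : 1 ≤ m) (hn : Fintype.card V = 4 * m - 1)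
    (h : ∀ u v, u ≠ v → com T u v = (m : ℤ) - 1) :
    (F (4 * m) 4 : ℝ) ≤ m * (m - 1) * (4 * m ^ 2 - 7 * m + 2) + m * (m - 1) / 2 := by
  obtain ⟨j, rfl⟩ : ∃ j, m = j + 1 := ⟨m - 1, by omega⟩
  have hn' : Fintype.card V = 4 * j + 3 := by omega
  obtain ⟨H, _, hH⟩ := Finset.exists_subset_card_eq (s := (Finset.univ : Finset V))
    (n := 2 * j + 1) (by rw [Finset.card_univ, hn']; omega)
  have h1 := ext_value hT hn' (fun u v huv => by rw [h u v huv]; push_cast; ring) H hH
  have h2 : F (4 * (j + 1)) 4 ≤ tr (ext T (fun v => v ∈ H)) 4 := by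
    have h3 := F_le_tr (ext_tournament hT (fun v => v ∈ H)) 4
    rwa [Fintype.card_option, hn', show 4 * j + 3 + 1 = 4 * (j + 1) by ring] at h3
  have h3 : (F (4 * (j + 1)) 4 : ℚ) ≤ L (4 * (j + 1)) + (j + 1) * j / 2 := by
    rw [← h1]
    exact_mod_cast h2
  rw [L0] at h3
  have h4 : (F (4 * (j + 1)) 4 : ℝ) ≤ ((((j + 1 : ℕ) : ℚ) * (((j + 1 : ℕ) : ℚ) - 1) *
      (4 * ((j + 1 : ℕ) : ℚ) ^ 2 - 7 * ((j + 1 : ℕ) : ℚ) + 2) + (j + 1) * j / 2 : ℚ) : ℝ) := by
    exact_mod_cast h3
  refine h4.trans (le_of_eq ?_)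
  push_cast
  ring

theorem lower {m : ℕ} (hm : 1 ≤ m) :
    (m : ℝ) * (m - 1) * (4 * m ^ 2 - 7 * m + 2) + ((3 - √5) / 4 * m ^ 2 - m + 1 / 4)
      ≤ F (4 * m) 4 := by
  rcases Nat.lt_or_ge m 2 with h | h
  · have : m = 1 := by omega
    subst this
    have h0 : 0 ≤ √5 := Real.sqrt_nonneg 5
    have h1 : (0 : ℝ) ≤ F (4 * 1) 4 := Nat.cast_nonneg _
    push_cast
    push_cast at h1
    linarith
  · obtain ⟨T, hT, hF⟩ := F_attained (4 * m) 4
    have h1 := quad_lower hT h (by rw [Fintype.card_fin])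
    rw [hF, L0] at h1
    push_cast at h1
    exact h1

/-- The excess of `F(4m,4)` over the convexity bound `m (m - 1) (4 m² - 7 m + 2)` is at least
`(3 - √5)/4 m² - m + 1/4` for every `m ≥ 1`, and at most `m (m - 1) / 2` whenever a doubly regular
tournament of order `4m - 1` exists or `4m - 1` is a prime power. -/
theorem result :
    (∀ m : ℕ, 1 ≤ m → (m : ℝ) * (m - 1) * (4 * m ^ 2 - 7 * m + 2) +
      ((3 - √5) / 4 * m ^ 2 - m + 1 / 4) ≤ F (4 * m) 4) ∧
    ∀ m : ℕ, 1 ≤ m → ((∃ T : Fin (4 * m - 1) → Fin (4 * m - 1) → Prop, DoublyRegular T) ∨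
      IsPrimePow (4 * m - 1)) →
      (F (4 * m) 4 : ℝ) ≤ m * (m - 1) * (4 * m ^ 2 - 7 * m + 2) + m * (m - 1) / 2 := by
  refine ⟨fun m hm => lower hm, fun m hm h => ?_⟩
  rcases h with ⟨T, hT, hcom⟩ | h
  · refine upper hT hm (by rw [Fintype.card_fin]) (fun u v huv => ?_)
    have h1 := com_ncard T u v
    have h2 := hcom u v huv
    rw [Nat.card_eq_fintype_card, Fintype.card_fin] at h2
    omega
  · obtain ⟨p, k, hp, hk, hpk⟩ := h
    have hp' : Nat.Prime p := hp.nat_prime
    haveI : Fact p.Prime := ⟨hp'⟩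
    haveI : Finite (GaloisField p k) := by
      apply Nat.finite_of_card_ne_zero
      rw [GaloisField.card p k hk.ne']
      exact pow_ne_zero _ hp'.ne_zero
    haveI : Fintype (GaloisField p k) := Fintype.ofFinite _
    have hcard : Fintype.card (GaloisField p k) = 4 * m - 1 := by
      rw [← Nat.card_eq_fintype_card, GaloisField.card p k hk.ne', hpk]
    have hq : Fintype.card (GaloisField p k) % 4 = 3 := by rw [hcard]; omega
    refine upper (paley_tournament _ hq) hm hcard (fun u v huv => ?_)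
    have h1 := paley_com _ hq huv
    rw [hcard] at h1
    omega

end Pool.Agent.Results.MP_f3446c_co.QuadraticExcess
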