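import Pool.Agent.Lib.MP_f3446c_co.Asym
import Pool.Agent.Lib.MP_f3446c_co.Strict

/-!
# The minimum number `F(n,4)` of transitive 4-vertex subtournaments

Definitions (in `Pool.Agent.Lib.MPf3446c`):

* `IsTournament T`: no vertex dominates itself, and of two different vertices exactly one
  dominates the other;
* `tr T k`: number of `k`-element sets of vertices on which `T` is transitive;
* `F n k`: minimum of `tr T k` over all tournaments `T` on `Fin n`;
* `L n`: an explicit polynomial of degree 4 in `n` for every residue of `n` modulo 4;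
* `DoublyRegular T`: any two vertices have exactly `(n - 3) / 4` common out-neighbours;
* `NearHomogeneous T`: every vertex dominates `(n - 1) / 2` vertices and any two vertices have
  `(n - 5) / 4` or `(n - 1) / 4` common out-neighbours.

The theorem is the lower bound `L n ≤ F n 4` with all its cases of equality.
-/

set_option autoImplicit false

namespace Pool.Agent.Results.MP_f3446c_co.TransitiveFour

open Pool.Agent.Lib.MPf3446c Filter Topology

/-- transport of the common out-degrees -/
theorem com_equiv {V W : Type*} [Fintype V] [Fintype W] (e : W ≃ V) (T : V → V → Prop) (u v : W) :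
    com (fun a b => T (e a) (e b)) u v = com T (e u) (e v) := by
  rw [com_eq, com_eq]
  exact Fintype.sum_equiv e _ _ (fun x => rfl)

theorem dr_fin {V : Type*} [Fintype V] {T : V → V → Prop} (hT : IsTournament T) {n j : ℕ}
    (hn : Fintype.card V = n) (hnj : n = 4 * j + 3) (h : ∀ u v, u ≠ v → com T u v = j) :
    ∃ T' : Fin n → Fin n → Prop, DoublyRegular T' := by
  let e : Fin n ≃ V := (Fintype.equivFinOfCardEq hn).symm
  refine ⟨fun a b => T (e a) (e b), hT.comap e.injective, fun u v huv => ?_⟩
  have h1 := com_ncard (fun a b => T (e a) (e b)) u v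
  rw [com_equiv e T u v, h _ _ (fun h2 => huv (e.injective h2))] at h1
  beta_reduce at h1 ⊢
  rw [Nat.card_eq_fintype_card, Fintype.card_fin]
  omega

theorem com_of_dr {n j : ℕ} (hnj : n = 4 * j + 3) {T : Fin n → Fin n → Prop}
    (h : DoublyRegular T) {u v : Fin n} (huv : u ≠ v) : com T u v = j := by
  have h1 := com_ncard T u v
  have h2 := h.2 u v huv
  rw [Nat.card_eq_fintype_card, Fintype.card_fin] at h2
  omega

theorem case3 {n : ℕ} (hn : 4 ≤ n) (h3 : n % 4 = 3) :
    (F n 4 : ℚ) = L n ↔ ∃ T : Fin n → Fin n → Prop, DoublyRegular T := by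
  obtain ⟨j, hj⟩ : ∃ j, n = 4 * j + 3 := ⟨n / 4, by omega⟩
  constructor
  · intro h
    obtain ⟨T, hT, hF⟩ := F_attained n 4
    refine dr_fin hT (Fintype.card_fin n) hj (fun u v huv => ?_)
    apply dr_of_eq hT (by omega) (by rw [Fintype.card_fin, hj]) _ huv
    rw [hF, h, hj]
  · rintro ⟨T, hT⟩
    have h1 := (eq_of_dr hT.1 (by rw [Fintype.card_fin, hj])
      (fun u v huv => com_of_dr hj hT huv)).1
    exact F_eq_of hT.1 (Fintype.card_fin n) hn (by rw [h1, hj])

theorem case2 {n : ℕ} (hn : 4 ≤ n) (h2 : n % 4 = 2) :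
    (F n 4 : ℚ) = L n ↔ ∃ T : Fin (n + 1) → Fin (n + 1) → Prop, DoublyRegular T := by
  obtain ⟨j, hj⟩ : ∃ j, n = 4 * j + 2 := ⟨n / 4, by omega⟩
  constructor
  · intro h
    rcases Nat.lt_or_ge n 10 with hs | hs
    · have h6 : n = 6 := by omega
      subst h6
      have : Fact (Nat.Prime 7) := ⟨by norm_num⟩
      have hq : Fintype.card (ZMod 7) % 4 = 3 := by rw [ZMod.card]
      refine dr_fin (paley_tournament (ZMod 7) hq) (ZMod.card 7) (j := 1) rfl (fun u v huv => ?_)
      have h7 := paley_com (ZMod 7) hq huv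
      rw [ZMod.card] at h7
      push_cast at h7 ⊢
      linarith
    · obtain ⟨T, hT, hF⟩ := F_attained n 4
      obtain ⟨T', hT', hcom⟩ := ext_of_eq hT (j := j) (by omega) (by rw [Fintype.card_fin, hj])
        (by rw [hF, h, hj])
      exact dr_fin hT' (by rw [Fintype.card_option, Fintype.card_fin]) (j := j) (by omega) hcom
  · rintro ⟨T, hT⟩
    have h3 : n + 1 = 4 * j + 3 := by omega
    have := delete_dr hT.1 (j := j) (by omega) (by rw [Fintype.card_fin, h3])
      (fun u v huv => com_of_dr h3 hT huv)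
    rw [hj]
    exact this

theorem case1 {n : ℕ} (hn : 9 ≤ n) (h1 : n % 4 = 1) :
    (F n 4 : ℚ) = L n ↔ ∃ T : Fin n → Fin n → Prop, NearHomogeneous T := by
  obtain ⟨j, hj⟩ : ∃ j, n = 4 * j + 1 := ⟨n / 4, by omega⟩
  constructor
  · intro h
    obtain ⟨T, hT, hF⟩ := F_attained n 4
    obtain ⟨hd, hc⟩ := nh_of_eq hT (j := j) (by omega) (by rw [Fintype.card_fin, hj])
      (by rw [hF, h, hj])
    refine ⟨T, hT, fun u => ?_, fun u v huv => ?_⟩
    · have h2 := deg_ncard T u
      rw [hd u] at h2
      rw [Nat.card_eq_fintype_card, Fintype.card_fin]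
      omega
    · have h2 := com_ncard T u v
      rw [Nat.card_eq_fintype_card, Fintype.card_fin]
      rcases hc u v huv with h3 | h3 <;> rw [h3] at h2
      · left; omega
      · right; omega
  · rintro ⟨T, hT, hd, hc⟩
    rw [Nat.card_eq_fintype_card, Fintype.card_fin] at hc
    rw [Nat.card_eq_fintype_card, Fintype.card_fin] at hd
    have h2 := eq_of_nh hT (j := j) (by rw [Fintype.card_fin, hj])
      (fun v => by have h3 := deg_ncard T v; have h4 := hd v; omega)
      (fun u v huv => by
        have h3 := com_ncard T u v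
        rcases hc u v huv with h4 | h4
        · left; omega
        · right; omega)
    exact F_eq_of hT (Fintype.card_fin n) (by omega) (by rw [h2, hj])

/-- `F(n,4) ≥ L(n)` for all `n ≥ 4`, and for `n ≥ 6` equality holds exactly in the following cases:
`n = 3 mod 4` and there is a doubly regular tournament of order `n`; `n = 2 mod 4` and there is one
of order `n + 1`; `n = 1 mod 4` and there is a near-homogeneous tournament of order `n`. -/
theorem result (n : ℕ) (hn : 4 ≤ n) :
    L n ≤ F n 4 ∧
    (6 ≤ n → ((F n 4 : ℚ) = L n ↔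
      (n % 4 = 3 ∧ ∃ T : Fin n → Fin n → Prop, DoublyRegular T) ∨
      (n % 4 = 2 ∧ ∃ T : Fin (n + 1) → Fin (n + 1) → Prop, DoublyRegular T) ∨
      (n % 4 = 1 ∧ ∃ T : Fin n → Fin n → Prop, NearHomogeneous T))) := by
  refine ⟨L_le_F hn, fun h6 => ?_⟩
  have h4 : n % 4 = 0 ∨ n % 4 = 1 ∨ n % 4 = 2 ∨ n % 4 = 3 := by omega
  rcases h4 with h | h | h | h
  · obtain ⟨m, rfl⟩ : ∃ m, n = 4 * m := ⟨n / 4, by omega⟩
    have h1 := strict (m := m) (by omega)
    constructor
    · intro h2
      exact absurd h2.symm h1.ne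
    · rintro (⟨h2, -⟩ | ⟨h2, -⟩ | ⟨h2, -⟩) <;> omega
  · rw [case1 (by omega) h]
    constructor
    · intro h2
      exact Or.inr (Or.inr ⟨h, h2⟩)
    · rintro (⟨h2, -⟩ | ⟨h2, -⟩ | ⟨-, h2⟩)
      · omega
      · omega
      · exact h2
  · rw [case2 hn h]
    constructor
    · intro h2
      exact Or.inr (Or.inl ⟨h, h2⟩)
    · rintro (⟨h2, -⟩ | ⟨-, h2⟩ | ⟨h2, -⟩)
      · omega
      · exact h2
      · omega
  · rw [case3 hn h]
    constructor
    · intro h2
      exact Or.inl ⟨h, h2⟩
    · rintro (⟨-, h2⟩ | ⟨h2, -⟩ | ⟨h2, -⟩)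
      · exact h2
      · omega
      · omega

end Pool.Agent.Results.MP_f3446c_co.TransitiveFour
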